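import Pool.Agent.H621.NF.Twr

/-!
# The conjecture of Hodge type for the products of an arbitrary variety with almost all members of an
# independent family

Let `k` be an algebraically closed field of positive characteristic and `F` a subfield, finitely
generated over the prime field, with Galois group `Γ`. Let `X_i`, `i ∈ J`, be a finite or infinite
family of smooth projective varieties over `F` which is **independent**: for every finite part `A` of
the family the monodromy group (the Zariski closure of the image of the Galois group, up to finite
index) of the product of the `X_i`, `i ∈ A`, is the product of the monodromy groups of the `X_i` over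
the multiplicative group (which acts on the Tate twists). Nothing else is assumed on the monodromy
groups: they can be tori, products, or any reductive groups.

**Theorem.** Let `Z` be **any** smooth projective variety over `F`. There is a finite subset `S` of `J`
such that for all pairwise different `i_1, …, i_m ∈ J` which are not in `S`, and for all `n_r` and `s`,
for `Y = X_{i_1}^(n_1) × ⋯ × X_{i_m}^(n_m) × Z^s` the following holds. Suppose that the Tate conjecture
and the conjecture D (numerical = homological equivalence) are known for all factors
`X_{i_r}^(n_r)` (nothing is assumed on `Z`), or for all factors of `Y` but one, which can be any of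
them. Then

* every divisor class `c` on `Y` with hard Lefschetz, for instance every **ample** class, is the sum of
  the pull-backs of divisor classes `f_r` on the factors `X_{i_r}^(n_r)` and `e` on `Z^s` with hard
  Lefschetz;
* for all sums `c` of pull-backs of divisor classes `f_r` and `e` with hard Lefschetz and of positive
  degree, the conjecture of Hodge type for `(Y, c)` holds **if and only if** it holds for `(Z^s, e)` and
  for all `(X_{i_r}^(n_r), f_r)`;
* if moreover the conjecture A of Lefschetz type holds for `(Y, c)`, then the conjecture of Hodge type
  **modulo numerical equivalence** holds for `(Y, c)` if and only if it holds for `(Z^s, e)` and for all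
  `(X_{i_r}^(n_r), f_r)`. Here nothing is assumed on the conjecture D for `Z`.

The set `S` depends only on the family and on the Galois representation `H(Z)`. If `c` is ample then the
`f_r` and `e` are ample too, as `c` restricts to them, and in particular of positive degree.

In the first form of the conjecture the classes of cycles are taken in cohomology, and the primitive
ones are defined by `c ^ (n - 2 j + 1) x = 0` in cohomology; with the conjecture A this implies the
conjecture D. In the second form, posed here, cycles are taken modulo numerical equivalence: for every
cycle `x` of codimension `j` which is not numerically trivial and for which `c ^ (n - 2 j + 1) x` is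
numerically trivial, the sign of `x · x · c ^ (n - 2 j)` is `(-1) ^ j`.

For instance, let `X_i`, `i ∈ J`, be elliptic curves over `F` which are not supersingular, one from each
isogeny class over the algebraic closure, constant or not. This family is independent, and the Tate
conjecture, the conjecture D and the conjecture of Hodge type are known for all powers of the `X_i`,
for which all Tate classes are generated by divisors (Tate, Zarhin, Spiess, Milne). Let `Z` be an
abelian variety of dimension four over `F`: the conjecture A is known for abelian varieties (Lieberman,
Kleiman), and the conjecture of Hodge type modulo numerical equivalence is known for `Z` (Ancona).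
Hence for all elliptic curves outside of finitely many isogeny classes (which depend on `Z`) it holds
for `X_{i_1}^(n_1) × ⋯ × X_{i_m}^(n_m) × Z`, of arbitrary dimension, and **all** polarizations. The same
holds, with the first form of the conjecture, for every variety `Z` of dimension at most three. It is
not known that the conjecture of Hodge type for two varieties implies the conjecture for their product:
the product has in general many algebraic classes which are not sums of products.

## The formal statement

`W` is a Weil cohomology theory with algebraically closed coefficients (étale cohomology with
coefficients in the closure of `ℚ_ℓ`), `Γ` is a group (the Galois group), `χ` a character (the inverse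
of the cyclotomic character), and a `GVar W Γ` is a variety with an action of `Γ` on its cohomology
algebra; a `PVar W Γ` is such a variety together with a cohomology class. The classes of algebraic
cycles of codimension `j` are supposed to be multiplied by `χ ^ j` by subgroups of finite index
(`RespectsCycles`). `PVar.IsLefschetz` says that the class is the class of a divisor which satisfies the
hard Lefschetz theorem, `PVar.IsPolarization` that moreover its degree is positive, and
`PVar.HodgeType` and `PVar.NumericalHodgeType` are the two forms of the conjecture of Hodge type for
this class, `PVar.ConjectureA` is the conjecture A. `IsKnown χ X` says that the Tate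
conjecture and the conjecture D hold for `X`. `F i` is a set of varieties, for instance the set of the
powers of `X_i`; `IsTower F Z l Y` says that `Y = X_1 × (X_2 × ( ⋯ × Z))` with `X_r ∈ F i_r`, where `l`
is the list of the pairs `(i_r, X_r)`, and `IsSumTower F Z l Y` says this for varieties with classes,
where the class of `Y` is the sum of the pull-backs of the classes of the factors.

The independence is expressed by elements of `Γ`: for every finite part `A` of `J` there is `g ∈ Γ`
such that (`IndependentFamily`)

* `g` is generic for all `X ∈ F i`, `i ∈ A` (`IsGeneric`): on every subspace of the cohomology of `X`
  which is stable under a subgroup `Δ` of finite index and which does not consist of sums of Tate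
  classes, the powers `g ^ m ∈ Δ` have an eigenvalue no power of which is a power of `χ g`;
* the groups generated by the eigenvalues of `g` on the cohomology of the varieties in `F i` are
  independent for different `i ∈ A`, modulo roots of unity and roots of powers of `χ g`
  (`IndependentModulo`).

If the monodromy groups are reductive and independent in the above sense, every `g` whose image
generates (up to finite index) a maximal torus of the monodromy group of the product has these
properties, for instance suitable Frobenius elements (Serre). The variety `Z` enters through a
finite-dimensional representation `V` of `Γ`, for instance `V = H(Z)`: `EigenvaluesFrom χ V F S Z'` says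
that the eigenvalues of all `g` on the cohomology of `Z'` are in the group generated by `χ g`, the
eigenvalues of `g` on `V` and on the cohomology of the varieties in `F i`, `i ∈ S`; this is so for all
powers of `Z`. The exceptional set `S` depends only on the family and on `V`; it is the same set as in
the files `AlmostAllFactors` of the problems `MP_938ce2_ag` (Tate conjecture), `MP_f569db_ag`
(conjecture D) and `MP_0273e8_ag` (conjecture A).

## Proof

By `AlmostAllFactors` of `MP_f569db_ag` all algebraic cycles on the products split: their classes are
sums of products of classes of algebraic cycles on the factors. On a product `X × Y` whose cycles split,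
where the conjecture D holds for one factor, say `X`, the conjecture A holds for this factor, and the
operators of the Lefschetz theory of `X` respect the algebraic classes; an orthogonal basis of the
algebraic classes of `X` for the positive definite form reduces the positivity on the product to the one
on `Y` (library `TH132`). The theorem is symmetric in the two factors (`hodge_swap`). Conversely, the
form on the product restricts to the form on `Y` multiplied by the positive degree of `X`.

In the numerical form the form of `Y` on the algebraic classes is only positive semidefinite, with the
numerically trivial classes as its kernel (`bf_semi`), and a class on `X × Y` is numerically trivial if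
its coefficients in the orthogonal basis are. The conjecture A shows that each algebraic class which is
primitive modulo numerical equivalence is primitive in cohomology up to a numerically trivial algebraic
class (`numHodge_iff`).
-/

open CategoryTheory AlgebraicGeometry

universe u

namespace Pool.Agent.Results.MP_ffcd14_ag.AlmostAllFactors

open Pool.Agent.H914 Pool.Agent.H914.VarClass Pool.Agent.H914.VarClass.Obj
  Pool.Agent.TH125.Gal Pool.Agent.H621.AF

/-- **The conjecture of Hodge type for the products of an arbitrary variety with almost all members of
an independent family.** -/
theorem result {k : Type u} [Field k] {𝒱 : VarClass k} {ops : CycleOps 𝒱}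
    {W : WeilCohomology.{u, 0} ops} [IsAlgClosed W.K] {Γ : Type} [Group Γ] (χ : Γ →* W.Kˣ)
    {J : Type} (F : J → Set (GVar W Γ)) (hF : IndependentFamily χ F) (P : FinRep W.K Γ) :
    ∃ S : Finset J, ∀ Z : GVar W Γ, RespectsDegrees Z → HasPoint Z → EigenvaluesFrom χ P F S Z →
      (∀ l Y, IsTower F Z l Y → RespectsCycles χ Y) →
      (∀ l Y, IsTower F Z l Y → (∀ p ∈ l, p.1 ∉ S) → KnownForAllButOne χ Z l →
        ∀ c, PVar.IsLefschetz ⟨Y, c⟩ → ∃ e l', PVar.IsLefschetz ⟨Z, e⟩ ∧
          (∀ p ∈ l', p.2.IsLefschetz) ∧ forget l' = l ∧ IsSumTower F ⟨Z, e⟩ l' ⟨Y, c⟩) ∧
      ∀ e l Y, IsSumTower F ⟨Z, e⟩ l Y → (∀ p ∈ l, p.1 ∉ S) → KnownForAllButOne χ Z (forget l) →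
        PVar.IsPolarization ⟨Z, e⟩ → (∀ p ∈ l, p.2.IsPolarization) →
          Y.IsPolarization ∧
            (Y.HodgeType ↔ PVar.HodgeType ⟨Z, e⟩ ∧ ∀ p ∈ l, p.2.HodgeType) ∧
            (Y.ConjectureA → (Y.NumericalHodgeType ↔
              PVar.NumericalHodgeType ⟨Z, e⟩ ∧ ∀ p ∈ l, p.2.NumericalHodgeType)) := by
  obtain ⟨S, hS⟩ := exists_exceptional hF P
  refine ⟨S, fun Z h1 h2 h3 hcl =>
    ⟨fun l Y hY hl hK c hc => div_tower hF hS h1 h2 h3 hcl hY hl hK c hc,
      fun e l Y hY hl hK he hL => ?_⟩⟩
  obtain ⟨h4, h5⟩ := hodge_tower hF hS (Z := ⟨Z, e⟩) h1 h2 h3 hcl hY hl hK he hL
  exact ⟨h4, h5, fun hA => numHodge_tower hF hS (Z := ⟨Z, e⟩) h1 h2 h3 hcl hY hl hK he hL hA⟩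

end Pool.Agent.Results.MP_ffcd14_ag.AlmostAllFactors
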