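import Pool.Agent.H802V.Hdg

/-!
# The standard conjecture of Hodge type for products of powers of varieties with big monodromy

Let `W` be a Weil cohomology theory with algebraically closed coefficients (étale cohomology with
coefficients in the closure of `ℚ_ℓ`) on a class of smooth proper varieties over an algebraically
closed field `k` of any characteristic, for instance the closure of a field `F` of functions in
several variables over a finite field, and `𝒢` a class of varieties, closed under products, with an
action of a group `Γ` on the cohomology which has the formal properties of the action of the Galois
group of `F` (`IsGaloisAct`: the algebraic classes are fixed, up to the cyclotomic character, by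
subgroups of finite index).

Let `X_i` be finitely many varieties in `𝒢` with divisors `D_i` which satisfy the hard Lefschetz
theorem and the standard conjectures of Lefschetz and of Hodge type (`Polar`), for
instance curves, surfaces, abelian varieties for which the conjecture of Hodge type is known, or
generic hypersurfaces. Let the transcendental cohomology `T_i` of `X_i` (the orthogonal
complement of all algebraic classes) be in the middle degree with big monodromy: the Lie algebra of
the symplectic or orthogonal group of the intersection form on `T_i` is not commutative and
irreducible as a representation of `Γ` (`Big`), and some element of `Γ` has two eigenvalues on `T_i`
whose quotient is not a root of unity (`Hyperbolic`; the image of `Γ` is infinite modulo scalars).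
For `i ≠ j` let `T_i` and `T_j` be not isomorphic up to a character (`Apart`). If the groups of `T_i`
and `T_j` have the same dimension, then this dimension is not `28`, and if the dimensions of `T_i`
and `T_j` are different the dimension of the groups is larger than `10` (so the exceptional
isomorphisms `so(3) = sp(2)`, `so(5) = sp(4)` and triality are excluded).

Let `Z` be any other variety in `𝒢` with a divisor `E` with the properties in `Polar`, whose
cohomology is generated (in the sense of `Spanned`, up to finite index and characters) by finitely
many representations `G_j` which are apart from the `T_i`: the orthogonal or symplectic group of `G_j`
has a smaller dimension than that of `T_i`, or `G_j` is potentially abelian, or `G_j` has big monodromy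
and is not isomorphic to `T_i` up to a character. For instance `Z` can be a point, a product of
abelian varieties of CM type and of elliptic curves (`dim T_i > 2` in the symplectic and `> 3` in the
orthogonal case).

**Result.** The standard conjecture of Hodge type holds in all codimensions for all products of `Z`
and of powers of the `X_i`, with the sum of the pull-backs of the divisors. For `X_i` of even
dimension the exponent has to be less than `dim T_i`; for `X_i` of odd dimension it is
arbitrary.

The conjecture is known in characteristic zero, and in characteristic `p` for divisors, for abelian
fourfolds, and in a few other cases; it is not known for products in general. The
conditions can be checked for the generic members of families: the monodromy groups of Lefschetz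
pencils are open in the symplectic or orthogonal group (Deligne), and the irreducibility of the Lie
algebra only depends on the image of the Galois group.

The proof. (1) Let `L` be the Lie algebra of the families of skew operators on the `T_i` and `G_j` which
preserve all semi-invariant multilinear forms. The projection to each `T_i` is the whole
Lie algebra of the orthogonal or symplectic group, since it is an ideal stable under `Γ` and some
power of a hyperbolic element gives a nonzero element. If two simple factors were
identified in `L`, the group would have the same dimension and the same type, or the types `B_n` and
`C_n` with `n ≥ 3`, which is excluded by a trace argument. In the same type the isomorphism of Lie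
algebras is given by a linear isomorphism of the representations, as the traces of
products of four elements are preserved for `d ≠ 8 ε`; by Schur's lemma it is equivariant up to
scalars. (2) So `L` contains the skew operators on each `T_i` which are zero on all other spaces. By the
first fundamental theorem of invariant theory every semi-invariant class on the product of a power of
`X_i` and of a variety `B` (with cohomology generated by the other spaces) is a sum of products of
classes of `B` and of monomials in algebraic classes of the factors `X_i` and the transcendental parts
`Δ_T` of the diagonals of pairs of factors. (3) Algebraic classes on the product are therefore sums of
products of algebraic classes of the power of `X_i` and arbitrary classes of `B`. This is what is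
needed for the positivity of the intersection form on the primitive algebraic classes of
the product (the algebraic classes form representations of the Lie algebra `sl(2)` of the Lefschetz
operator, and the form on the tensor product of two positive frames is positive). (4) For the
powers of `X_i` themselves the positivity follows by induction on the number of factors: the
classes `Δ_T` are primitive, orthogonal to the products of classes of the factors, and the square of
`Δ_T` is `± dim T_i` with the correct sign.
-/

universe u

namespace Pool.Agent.Results.MP_ffcd14_ag.BigMonodromyProducts

open Pool.Agent.H914 Pool.Agent.H281R3.HT Pool.Agent.TH125.Gal Pool.Agent.H802T Pool.Agent.H802V

/-- **The standard conjecture of Hodge type for products of powers of varieties with big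
monodromy.** -/
theorem result {k : Type u} [Field k] {𝒱 : VarClass k} {ops : CycleOps 𝒱}
    (W : WeilCohomology.{u, 0} ops) [IsAlgClosed W.K] {Γ : Type} [Group Γ] (χ : Γ →* W.Kˣ)
    (𝒢 : Set (GVar W Γ)) {ι N : Type} [Finite ι] [Finite N] (X : ι → GVar W Γ)
    (D : ∀ i, (X i).X.Cycles) (T : ι → PRep W.K Γ) (G : N → PRep W.K Γ) (Z : GVar W Γ)
    (h : BigSystem χ 𝒢 X D T G Z) (E : Z.X.Cycles) (hE : Polar W ⟨Z.X, E⟩) (L : List (ι × ℕ))
    (hL : Allowed X T L) :
    HodgeType W (powers ops (fun i => ⟨(X i).X, D i⟩) ⟨Z.X, E⟩ L).X
      (powers ops (fun i => ⟨(X i).X, D i⟩) ⟨Z.X, E⟩ L).D :=
  h.hodge hE L hL

end Pool.Agent.Results.MP_ffcd14_ag.BigMonodromyProducts
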