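import Pool.Agent.H934.GC.Main

/-!
# The standard conjecture of Hodge type for fourfolds with a group action

Let `X` be a smooth projective fourfold over a field of any characteristic, with an action of a finite
group `G`, and let `𝓗` be a set of subgroups of `G` which detects the representations of `G`
(`Detects`): every nonzero rational representation of `G` of finite dimension has a nonzero vector fixed
by some member of `𝓗`. Examples (`detects_klein`): if `s` and `t` are involutions (so that they generate a
dihedral group, for instance the group with four elements, or the symmetric group on three letters),
then the three cyclic subgroups generated by `s`, `t` and `s t` detect all representations.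

**Theorem.** If for every `H` in `𝓗` the quotient `X / H` has a model `P` (a smooth projective fourfold
with a generically finite morphism to `X / H`) which satisfies the numerical standard conjecture of Hodge
type for at least one ample divisor, then `X` satisfies it for all ample divisors.

No standard conjecture is assumed otherwise, and the quotients may be singular. This is an analogue for
the Hodge type conjecture of the theorems of Accola and of Kani and Rosen on Jacobians and of the method
of Inose, Mizukami and Barlow for zero-cycles; the difference is that positivity is not a linear
condition: it is neither inherited by direct summands of motives (the intersection forms do not
correspond) nor, a priori, by the subspace of classes spanned by the translates of the `H`-invariant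
ones.

**Unconditional examples.** By `MP_ffcd14_ag.UniruledFourfolds` the hypothesis on `P` holds if the
quotients `X / H` are uniruled. So the conjecture holds for all fourfolds with involutions `s`, `t`
generating a finite group such that `X / s`, `X / t` and `X / (s t)` are uniruled. Such `X` can be of general
type, so that they are not uniruled themselves: let `X₀` be the bidouble cover of `ℙ⁴` (characteristic not
two) defined by three general quartic hypersurfaces, so that `2 K = π^* O(2 (-5) + 12) = π^* O(2)` on
`X₀`. Its singularities are those of the quotient of a fourfold by an involution with fixed points along
the curve in which the three quartics meet; they are terminal, and the blow-up `X` of this curve is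
smooth and of general type. The quotients of `X₀` by the three involutions, the double covers of `ℙ⁴`
branched along the unions of two of the quartics, are Fano fourfolds with canonical singularities, hence
uniruled (Miyaoka and Mori).

The geometric input is standard and enters, in terms of cycles, in the definition `IsQuotientModel`: for
`P → X / H` and a component `Q` of the fibre product of `X` and `P` (or an alteration of it), with
projections `a : Q → X`, `b : Q → P`, the correspondence `a_* b^* b_* a^*` is a positive multiple of the
identity on `H`-invariant classes, and `a^* D = b^* h`, where `h` is the pull-back of the ample divisor on
`X / H` which gives `D`.

Method. (1) Let `x` be a primitive `H`-invariant class of codimension two on `X`, and `y = b_* a^* x`. Then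
`y · y = κ (x · x)` with `κ > 0`, and `y` is orthogonal to `h N¹(P)`, and to `A r` if `r` is a divisor on `P`
with `h r = 0`, since then `a^* D · b^* r = 0`, so that `b^* r` is contracted by `a`. The form on the classes
of codimension two on `P` has only `ρ₁(P) - 1` negative squares, and they are used up by `h N¹(P)` and the
`A r`; so `y · y ≥ 0` (`nonneg_of_model`). (2) Let `U` be the space of primitive classes spanned by the orbit
of a primitive class. If the intersection form on `U` is not positive semidefinite, take the smallest ratio
`t < 0` of its real extension to a `G`-invariant positive definite form: the real classes for which the
ratio is `t` form a nonzero `G`-stable space, which contains a nonzero vector fixed by some `H` in `𝓗`; it is a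
limit of rational `H`-invariant classes, whose squares are nonnegative by (1), a contradiction
(`nonneg_of_detects`). (3) So the primitive classes have nonnegative squares, and the strict positivity and
the independence of the divisor follow from the count of negative squares as in
`MP_ffcd14_ag.UniruledFourfolds`.
-/

set_option autoImplicit false

open CategoryTheory AlgebraicGeometry

universe u v

namespace Pool.Agent.Results.MP_ffcd14_ag.GroupActions

open Pool.Agent.H914 Pool.Agent.H934.HS Pool.Agent.H934.GC VarClass Obj WeilCohomology

/-- **The standard conjecture of Hodge type for fourfolds with a group action** such that it holds for
models of the quotients by the members of a detecting set of subgroups. -/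
theorem result {k : Type u} [Field k] {𝒱 : VarClass k} {ops : CycleOps 𝒱}
    (W : WeilCohomology.{u, v} ops) {G : Type} [Group G] [Finite G] {X : 𝒱.Obj}
    {act : G → (X ⟶ X)} {D : X.Cycles} (hact : IsAction W act D) {𝓗 : Set (Subgroup G)}
    (hdet : Detects 𝓗) (hmod : ∀ H ∈ 𝓗, HasGoodModel W act D H) {C : X.Cycles}
    (hC : HodgeIndex W X C) : NumHodge ops X C :=
  numHodge_of_good (good_of_action hact hdet hmod) hC

end Pool.Agent.Results.MP_ffcd14_ag.GroupActions
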