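import Pool.Agent.H934.HS.Image

/-!
# The standard conjecture of Hodge type for uniruled fourfolds

The first open case of the standard conjecture of Hodge type (in positive characteristic) is that of
surfaces on fourfolds: for an ample divisor `D` on a smooth projective fourfold `X` and a cycle `z` of
codimension two which is primitive (`D · z` is numerically equivalent to zero) and not numerically
equivalent to zero, `z · z > 0`. It is known for abelian fourfolds. This file proves it, over every
field and without any condition on the cycles, for uniruled fourfolds; this is the analogue of the
theorem of Conte and Murre (the Hodge conjecture for uniruled fourfolds over the complex numbers).

Let `Generated W S` be the smallest class of fourfolds which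

* contains the set `S` of fourfolds for which the conjecture is known (for at least one divisor `D`
  with the Hodge index theorem; `S` may be empty),
* contains all semistable families of rational curves over all threefolds (`IsRationalFamily`; in
  particular all `ℙ¹`-bundles),
* with a fourfold `X` contains all blow-ups of `X` in smooth centres (`IsBlowUp`),
* with a fourfold `P` contains all fourfolds `X` with a generically finite morphism `P ⟶ X`
  (`IsGenericallyFinite`), for example the fourfolds of which `P` is a blow-up.

**Theorem.** The numerical standard conjecture of Hodge type holds for all fourfolds in
`Generated W S` and all divisors `D` with the Hodge index theorem (for example all ample divisors).

By de Jong's theorem on families of curves, applied to the closure of the graph of a dominant rational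
map from `T × ℙ¹` to `X`, every uniruled projective fourfold `X` over an algebraically closed field
is the image, under a generically finite morphism, of a split semistable family `P ⟶ T` of curves of
genus zero with `P` and `T` smooth and projective and smooth outside a divisor of `T` with strict normal
crossings. (This remark is not part of the Lean statement.)

The geometric input (the classes of codimension two on such families, Zariski's lemma, blow-up formula,
self-intersection formula, Hodge index theorem for divisors, divisors contracted by a morphism) is well
known and enters in the definitions `IsRationalFamily`, `IsBlowUp`, `IsGenericallyFinite` and
`HodgeIndex`, in terms of cycles. No assumption is made on the threefolds, no standard conjecture is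
assumed, and no hard Lefschetz theorem.

The classes on a semistable family: let `A` be a divisor with nonzero degree on the fibres. The fibres
are trees of rational curves; each node over a point of `Δ s` has a label `s`, and the components
`E s i` over `Δ s` correspond to the parts of the tree cut out by the nodes with label `s`. By
localisation, the cycles of codimension two are generated by `p^* a · A`, `p^* b`, the push-forwards of
the `(q s i)^* y`, the components of the preimages of the curves in `Δ s ∩ Δ t` (which are combinations
of the preimages in the `E s i` and `E t j`, since a function on the vertices of a tree which is
constant on the parts for `s` and on the parts for `t` is constant), and the intersections of adjacent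
components `E s i`, `E s j`; modulo the former these are all proportional to `p^* (Δ s) · A`.

Method. A fourfold is *good* if its intersection form in codimension two has less negative squares than
the rank `ρ₁` of the group of divisors modulo numerical equivalence; for a good fourfold the conjecture
holds for every `D` (`numHodge_of_good`). On a family `p : P ⟶ T` the classes `p^* a · A + p^* b` have at
most `ρ₁(T)` negative squares, they are orthogonal to the classes coming from the components `E s i`,
and the latter carry the tensor product of negative definite matrices with the intersection forms of
the surfaces `Δ s`, so that each component contributes one divisor and at most one negative square
(`nonneg_tensor`, `good_family`). A blow-up adds one divisor, and at most one negative square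
(`good_blowUp`). For a generically finite `q : P ⟶ X` with `P` good, `q^* x` (`x` primitive) is
orthogonal to the subspace `h N¹(P)` where `h = q^* D`, on which the form is semidefinite up to one
positive square by a limit of the Hodge index theorem for the ample divisors `A + N h`, and to `A r` for
the divisors `r` in the kernel of `h` (which are contracted to points); the negative squares of `P` are
thus used up (`nonneg_of_orthogonal`, `good_image`).
-/

set_option autoImplicit false

open CategoryTheory AlgebraicGeometry

universe u v

namespace Pool.Agent.Results.MP_ffcd14_ag.UniruledFourfolds

open Pool.Agent.H914 Pool.Agent.H934.HS VarClass Obj WeilCohomology

/-- **The standard conjecture of Hodge type for the fourfolds generated by the known ones and by the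
semistable families of rational curves over threefolds.** -/
theorem result {k : Type u} [Field k] {𝒱 : VarClass k} {ops : CycleOps 𝒱}
    (W : WeilCohomology.{u, v} ops) (S : Set 𝒱.Obj)
    (hS : ∀ X ∈ S, X.dim = 4 ∧ ∃ D, HodgeIndex W X D ∧ NumHodge ops X D) {X : 𝒱.Obj}
    (hX : Generated W S X) {D : X.Cycles} (hD : HodgeIndex W X D) : NumHodge ops X D :=
  numHodge_of_good (generated_good S hS hX) hD

end Pool.Agent.Results.MP_ffcd14_ag.UniruledFourfolds
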